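import Pool.Agent.Lib.MP_f8d36e_nt.Glue
import Pool.Agent.Lib.MP_f8d36e_nt.Dens

set_option autoImplicit false

open Filter Finset
open scoped IntermediateField

namespace Pool.Agent.Results.MP_f8d36e_nt.Density

open Pool.Agent.Lib.MP_f8d36e_nt

open Classical in
theorem result : ∀ᶠ X : ℕ in atTop, (X : ℝ) / 1000 ≤
    #((Icc 1 X).filter fun m : ℕ => Squarefree m ∧ m % 8 = 5 ∧
      ∀ θ : Qbar, θ ^ 2 = -(m : Qbar) → GGC 2 2 ℚ⟮θ⟯.fixingSubgroup) := by
  filter_upwards [density] with X hX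
  refine hX.trans (Nat.cast_le.mpr (card_le_card fun m hm => ?_))
  rw [mem_filter] at hm ⊢
  exact ⟨hm.1, hm.2.1, hm.2.2.1, fun θ hθ => ggc_of_crit hm.2.1 hm.2.2.1 hm.2.2.2 hθ⟩

end Pool.Agent.Results.MP_f8d36e_nt.Density

/- Retired 2026-12-03: weaker form of the hand-in DensityOne. -/
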